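import Pool.Agent.W528.HC.Stm

set_option autoImplicit false

namespace Pool.Agent.W528.HC

open Finset Pool.Agent.W528.HA

lemma kv_pow {L R : Type} [Field L] [CommRing R] {N : ℕ} {z : L} (hN : 0 < N)
    (hz : IsPrimitiveRoot z N) {μ : R} (hμ : μ ^ N = 1) (e : ℕ) : kv N z μ (z ^ e) = μ ^ e := by
  classical
  have h1 : z ^ e = z ^ (e % N) := by
    conv_lhs => rw [← Nat.div_add_mod e N, pow_add, pow_mul, hz.pow_eq_one, one_pow, one_mul]
  have h2 : μ ^ e = μ ^ (e % N) := by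
    conv_lhs => rw [← Nat.div_add_mod e N, pow_add, pow_mul, hμ, one_pow, one_mul]
  rw [h1, h2]
  unfold kv
  rw [sum_eq_single (e % N)]
  · rw [if_pos rfl]
  · intro i hi hne
    rw [if_neg]
    intro h
    exact hne (hz.pow_inj (mem_range.mp hi) (Nat.mod_lt _ hN) h.symm)
  · intro h
    exact absurd (mem_range.mpr (Nat.mod_lt _ hN)) h

lemma kv_zero {L R : Type} [Field L] [CommRing R] {N : ℕ} {z : L} (hz : z ≠ 0) (μ : R) :
    kv N z μ 0 = 0 := by
  classical
  unfold kv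
  apply sum_eq_zero
  intro i _
  rw [if_neg]
  intro h
  exact pow_ne_zero i hz h.symm

theorem mu_main : MU := by
  intro L _ _ N z hN hz R _ μ hμ v w
  have hd := Pool.Agent.W528.HB.dvd_card_of_root hz (by omega)
  have hQ := Fintype.one_lt_card (α := L)
  have hu : (Fintype.card L - 1) / N ≠ 0 := by
    have := Nat.div_pos (Nat.le_of_dvd (by omega) hd) (by omega : 0 < N)
    omega
  have hz0 : z ≠ 0 := hz.ne_zero (by omega)
  have hkey : ∀ y : L, y ≠ 0 → ∃ i, y ^ ((Fintype.card L - 1) / N) = z ^ i := by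
    intro y hy
    have h1 : (y ^ ((Fintype.card L - 1) / N)) ^ N = 1 := by
      rw [← pow_mul, Nat.div_mul_cancel hd, FiniteField.pow_card_sub_one_eq_one y hy]
    have : NeZero N := ⟨by omega⟩
    obtain ⟨i, _, hi⟩ := hz.eq_pow_of_pow_eq_one h1
    exact ⟨i, hi.symm⟩
  by_cases hv : v = 0
  · rw [hv, zero_mul, zero_pow hu, kv_zero hz0, zero_mul]
  by_cases hw : w = 0
  · rw [hw, mul_zero, zero_pow hu, kv_zero hz0, mul_zero]
  obtain ⟨i, hi⟩ := hkey v hv
  obtain ⟨i', hi'⟩ := hkey w hw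
  rw [mul_pow, hi, hi', ← pow_add, kv_pow (by omega) hz hμ, kv_pow (by omega) hz hμ,
    kv_pow (by omega) hz hμ, pow_add]

end Pool.Agent.W528.HC
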