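import Pool.Agent.W528.HC.Non

/-!
# The L-function of the Jacobian
-/

set_option autoImplicit false

namespace Pool.Agent.W528.HC

open Finset Polynomial Pool.Agent.W528.HA

/-- The product of the polynomials `∏_{x ∈ A j s} (1 - x T)`, `0 < j < p`, `0 ≤ s < r`. -/
noncomputable def lPoly {E : Type} [Field E] (p r : ℕ) (A : ℕ → ℕ → Multiset E) : E[X] :=
  ∏ j ∈ Ico 1 p, ∏ s ∈ range r, ((A j s).map fun x => 1 - C x * X).prod

theorem fin_main (hAR : AR) (hPC : PC) {p r c : ℕ} (hp : p.Prime) (hr : 0 < r) (hrp : r.Coprime p)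
    [Fact c.Prime] (hcr : ¬ c ∣ r) (hpc : p ∣ c - 1)
    (κ : Type) [Field κ] [Fintype κ] [CharP κ c]
    {z : κ} (hz : IsPrimitiveRoot z (p * r)) {E : Type} [Field E] [CharZero E] [IsAlgClosed E]
    {μ : E} (hμ : IsPrimitiveRoot μ (p * r)) {m : ℕ} (hm : 0 < m) (α β : Fin m → κ)
    (a : Fin m → ℕ) (ha : ∀ i, 0 < a i) (ha2 : 2 * ∑ i, a i < p)
    (A : ℕ → ℕ → Multiset E)
    (hA : ∀ j s, 0 < j → j < p → s < r → IsCharL κ p r α β a z μ j s (A j s)) :
    (∀ (L : Type) [Field L] [Fintype L] [Algebra κ L],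
      ∑ j ∈ Ico 1 p, ∑ s ∈ range r, ((A j s).map fun x => x ^ Module.finrank κ L).sum
        = (surfacePoints L p r (fun i => algebraMap κ L (α i)) (fun i => algebraMap κ L (β i)) a : E)
          - (Fintype.card L : E) ^ 2) ∧
    ∀ (ζ : E) (M : ℕ), 0 < M → ζ ^ M = 1 → (lPoly p r A).eval (ζ * (Fintype.card κ : E)⁻¹) ≠ 0 := by
  classical
  obtain ⟨f, _, hf⟩ := FiniteField.card κ c
  refine ⟨?_, ?_⟩
  · intro L _ _ _
    have hzL : IsPrimitiveRoot (algebraMap κ L z) (p * r) :=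
      hz.map_of_injective (algebraMap κ L).injective
    have hap : ∀ i, 0 < a i ∧ a i < p := by
      intro i
      refine ⟨ha i, ?_⟩
      have := single_le_sum (f := a) (fun _ _ => Nat.zero_le _) (mem_univ i)
      omega
    rw [← hPC L p r (algebraMap κ L z) hp hr hrp hzL E μ hμ m _ _ a hap]
    refine sum_congr rfl fun j hj => sum_congr rfl fun s hs => ?_
    rw [mem_Ico] at hj
    exact hA j s hj.1 hj.2 (mem_range.mp hs) L
  · intro ζ M hM hζ h
    unfold lPoly at h
    rw [eval_prod, prod_eq_zero_iff] at h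
    obtain ⟨j, hj, h⟩ := h
    rw [eval_prod, prod_eq_zero_iff] at h
    obtain ⟨s, hs, h⟩ := h
    rw [eval_multiset_prod, Multiset.prod_eq_zero_iff, Multiset.map_map, Multiset.mem_map] at h
    obtain ⟨x, hx, h⟩ := h
    rw [mem_Ico] at hj
    simp only [Function.comp, eval_sub, eval_one, eval_mul, eval_C, eval_X] at h
    have hq : (Fintype.card κ : E) ≠ 0 := by exact_mod_cast Fintype.card_ne_zero
    have h1 : x * ζ = (Fintype.card κ : E) := by
      have h2 : x * (ζ * (Fintype.card κ : E)⁻¹) = 1 := (sub_eq_zero.mp h).symm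
      field_simp at h2
      linear_combination h2
    apply nonvanish hAR hp hr hrp hcr hpc κ (f := f) hf hz hμ hm α β a ha ha2 hj.1 hj.2
      (mem_range.mp hs) (A j s) (hA j s hj.1 hj.2 (mem_range.mp hs)) x hx M hM
    rw [← h1, mul_pow, hζ, mul_one]

end Pool.Agent.W528.HC
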