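import Pool.Agent.W528.HC.Red

/-!
# No zero of the L-function is a root of unity times `1 / q`
-/

set_option autoImplicit false

namespace Pool.Agent.W528.HC

open Finset Pool.Agent.W528.HA

/-- `∏_{x ∈ A} (1 - x T)` is the L-function of the character with exponents `(j, s)`. -/
def IsCharL (κ : Type) [Field κ] [Fintype κ] {E : Type} [Field E] (p r : ℕ) {m : ℕ}
    (α β : Fin m → κ) (a : Fin m → ℕ) (z : κ) (μ : E) (j s : ℕ) (A : Multiset E) : Prop :=
  ∀ (L : Type) [Field L] [Fintype L] [Algebra κ L],
    (A.map fun x => x ^ Module.finrank κ L).sum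
      = curveSum L E p r (fun i => algebraMap κ L (α i)) (fun i => algebraMap κ L (β i)) a
        (algebraMap κ L z) μ j s

lemma lines_map {κ L : Type} [Field κ] [Field L] [Algebra κ L] {m : ℕ} (α β : Fin m → κ) :
    (fun i k => algebraMap κ L (lines α β i k))
      = lines (fun i => algebraMap κ L (α i)) (fun i => algebraMap κ L (β i)) := by
  funext i k
  rcases i with i | i
  · fin_cases k <;> simp [lines]
  · fin_cases i <;> fin_cases k <;> simp [lines]

theorem nonvanish (hAR : AR) {p r c f : ℕ} (hp : p.Prime) (hr : 0 < r) (hrp : r.Coprime p)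
    [Fact c.Prime] (hcr : ¬ c ∣ r) (hpc : p ∣ c - 1)
    (κ : Type) [Field κ] [Fintype κ] [CharP κ c] (hf : Fintype.card κ = c ^ f)
    {z : κ} (hz : IsPrimitiveRoot z (p * r)) {E : Type} [Field E] [CharZero E] [IsAlgClosed E]
    {μ : E} (hμ : IsPrimitiveRoot μ (p * r)) {m : ℕ} (hm : 0 < m) (α β : Fin m → κ)
    (a : Fin m → ℕ) (ha : ∀ i, 0 < a i) (ha2 : 2 * ∑ i, a i < p)
    {j s : ℕ} (hj0 : 0 < j) (hjp : j < p) (hs : s < r) (A : Multiset E)
    (hA : IsCharL κ p r α β a z μ j s A) (x : E) (hx : x ∈ A) (M : ℕ) (hM : 0 < M) :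
    x ^ M ≠ (Fintype.card κ : E) ^ M := by
  classical
  intro hxM
  have hc : c.Prime := Fact.out
  have hf0 : 0 < f := by
    rcases Nat.eq_zero_or_pos f with h | h
    · rw [h, pow_zero] at hf
      have := Fintype.one_lt_card (α := κ)
      omega
    · exact h
  have hN : 2 ≤ p * r := le_trans hp.two_le (Nat.le_mul_of_pos_right p hr)
  obtain ⟨hlt, hpos, hdvd, j', hj', hsum⟩ :=
    hAR p r c f hp hr hrp hc hcr hpc hf0 m a ha ha2 hm j s hj0 hjp hs
  have hq : (Fintype.card κ : E) ≠ 0 := by exact_mod_cast Fintype.card_ne_zero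
  set q : E := (Fintype.card κ : E) with hqdef
  have hx0 : x ≠ 0 := by
    rintro rfl
    rw [zero_pow hM.ne'] at hxM
    exact pow_ne_zero M hq hxM.symm
  set B : Multiset E := (A.filter (· ≠ 0)).map (fun x => x / q) with hB
  have hBsum : ∀ n, 1 ≤ n → ∑ y ∈ B.toFinset, ((B.count y : ℕ) : E) * y ^ n
      = (A.map fun x => x ^ n).sum / q ^ n := by
    intro n hn
    have h1 : (B.map fun y => y ^ n).sum = ∑ y ∈ B.toFinset, ((B.count y : ℕ) : E) * y ^ n := by
      rw [Finset.sum_multiset_map_count]
      exact sum_congr rfl fun y _ => by rw [nsmul_eq_mul]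
    rw [← h1, hB, Multiset.map_map]
    have h2 : ((A.filter (· ≠ 0)).map ((fun y => y ^ n) ∘ fun x => x / q))
        = (A.filter (· ≠ 0)).map (fun x => x ^ n / q ^ n) :=
      Multiset.map_congr rfl fun x _ => by simp only [Function.comp]; rw [div_pow]
    rw [h2]
    have h3 : ∀ A' : Multiset E, ((A'.filter (· ≠ 0)).map (fun x => x ^ n / q ^ n)).sum
        = (A'.map fun x => x ^ n).sum / q ^ n := by
      intro A'
      induction A' using Multiset.induction_on with
      | empty => simp
      | cons y A' ih =>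
        rw [Multiset.map_cons, Multiset.sum_cons, add_div, ← ih]
        by_cases hy : y = 0
        · rw [Multiset.filter_cons_of_neg (p := fun x : E => x ≠ 0) A' (fun h => h hy), hy,
            zero_pow (by omega), zero_div, zero_add]
        · rw [Multiset.filter_cons_of_pos (p := fun x : E => x ≠ 0) A' hy, Multiset.map_cons,
            Multiset.sum_cons]
    exact h3 A
  refine Pool.Agent.W528.HB.core hN κ hf 1 (lines α β) (expo p r a j s) hlt hj' hsum hz hμ
    B.toFinset (fun y => B.count y) ?_ ?_ (x / q) ?_ M hM ?_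
  · intro y hy
    rw [Multiset.mem_toFinset] at hy
    refine ⟨?_, Multiset.count_pos.mpr hy⟩
    rw [hB, Multiset.mem_map] at hy
    obtain ⟨x', hx', rfl⟩ := hy
    rw [Multiset.mem_filter] at hx'
    exact div_ne_zero hx'.2 hq
  · intro L _ _ _
    have hL : 1 ≤ Module.finrank κ L := by
      have : Module.Finite κ L := .of_finite
      exact Module.finrank_pos
    rw [hBsum _ hL, hA L, lines_map]
    have hzL : IsPrimitiveRoot (algebraMap κ L z) (p * r) :=
      hz.map_of_injective (algebraMap κ L).injective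
    rw [red hzL (by omega) _ _ a μ j s hpos hdvd]
    have h2 : (Fintype.card L : E) = q ^ Module.finrank κ L := by
      have : Fintype.card L = Fintype.card κ ^ Module.finrank κ L :=
        Module.card_eq_pow_finrank (K := κ) (V := L)
      rw [this, hqdef]
      push_cast
      ring
    rw [h2, pow_one]
    have h3 : q ^ Module.finrank κ L ≠ 0 := pow_ne_zero _ hq
    field_simp
  · rw [Multiset.mem_toFinset, hB, Multiset.mem_map]
    exact ⟨x, Multiset.mem_filter.mpr ⟨hx, hx0⟩, rfl⟩
  · rw [div_pow, hxM, div_self (pow_ne_zero M hq)]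

end Pool.Agent.W528.HC
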