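import Pool.Agent.W528.HC.Stm2
import Pool.Agent.W528.HC.Red

/-!
# Reduction to the arrangement of the lines `x = α_i t + β_i`, `t = 0` and the line at infinity
-/

set_option autoImplicit false

namespace Pool.Agent.W528.HC

open Finset Pool.Agent.W528.HA

/-- The lines. -/
def lines2 {κ : Type} [Field κ] {m h : ℕ} (α β : Fin m → κ) (γ : Fin h → κ) :
    Fin m ⊕ (Fin h ⊕ Unit) → Fin (2 * 1 + 1) → κ
  | Sum.inl i => ![1, -α i, -β i]
  | Sum.inr (Sum.inl l) => ![0, 1, -γ l]
  | Sum.inr (Sum.inr _) => ![0, 0, 1]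

lemma lines2_inl {κ : Type} [Field κ] {m h : ℕ} (α β : Fin m → κ) (γ : Fin h → κ) (i : Fin m)
    (x t z : κ) :
    ∑ k, lines2 α β γ (Sum.inl i) k * (tri κ (x, t, z)) k = x - α i * t - β i * z := by
  rw [Fin.sum_univ_three, tri_zero, tri_one, tri_two]
  simp only [lines2]
  simp
  ring

lemma lines2_mid {κ : Type} [Field κ] {m h : ℕ} (α β : Fin m → κ) (γ : Fin h → κ) (l : Fin h)
    (x t z : κ) :
    ∑ k, lines2 α β γ (Sum.inr (Sum.inl l)) k * (tri κ (x, t, z)) k = t - γ l * z := by
  rw [Fin.sum_univ_three, tri_zero, tri_one, tri_two]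
  simp [lines2]
  ring

lemma lines2_last {κ : Type} [Field κ] {m h : ℕ} (α β : Fin m → κ) (γ : Fin h → κ) (u : Unit)
    (x t z : κ) :
    ∑ k, lines2 α β γ (Sum.inr (Sum.inr u)) k * (tri κ (x, t, z)) k = z := by
  rw [Fin.sum_univ_three, tri_zero, tri_one, tri_two]
  simp [lines2]

theorem red2 {L : Type} [Field L] [Fintype L] {R : Type} [CommRing R] {p r : ℕ} {z : L}
    (hz : IsPrimitiveRoot z (p * r)) (hN : 1 ≤ p * r) {m h : ℕ} (α β : Fin m → L) (a : Fin m → ℕ)
    (γ : Fin h → L) (b : Fin h → ℕ) (μ : R) (j s : ℕ) (hpos : 0 < expo2 p r a b j s (Sum.inr (Sum.inr ())))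
    (hdvd : p * r ∣ ∑ i, expo2 p r a b j s i) :
    kummerSum L R (p * r) (2 * 1 + 1) (lines2 α β γ) (expo2 p r a b j s) z μ
      = ((Fintype.card L : R) - 1) * doubleSum L R p r α β a γ b z μ j s := by
  classical
  set N := p * r with hNdef
  have hd : N ∣ Fintype.card L - 1 := Pool.Agent.W528.HB.dvd_card_of_root hz hN
  have hQ := Fintype.one_lt_card (α := L)
  set w := (Fintype.card L - 1) / N with hw
  have hw0 : w ≠ 0 := by
    have := Nat.div_pos (Nat.le_of_dvd (by omega) hd) (by omega : 0 < N)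
    omega
  have hwN : w * N = Fintype.card L - 1 := Nat.div_mul_cancel hd
  -- the value at a triple
  have hval : ∀ x t y : L, (∏ i, (∑ k, lines2 α β γ i k * (tri L (x, t, y)) k) ^ expo2 p r a b j s i)
      = (∏ i, (x - α i * t - β i * y) ^ (r * (j * a i % p))) * (∏ l, (t - γ l * y) ^ (p * (s * b l % r)))
        * y ^ expo2 p r a b j s (Sum.inr (Sum.inr ())) := by
    intro x t y
    rw [Fintype.prod_sum_type, Fintype.prod_sum_type, Fintype.prod_unique (ι := Unit), ← mul_assoc]
    congr 1
    · congr 1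
      · refine prod_congr rfl fun i _ => ?_
        rw [lines2_inl]
        rfl
      · refine prod_congr rfl fun l _ => ?_
        rw [lines2_mid]
        rfl
    · rw [lines2_last]
  unfold kummerSum
  rw [← (tri L).sum_comp]
  rw [Fintype.sum_prod_type]
  have h1 : ∀ x : L, ∑ v : L × L, kv N z μ ((∏ i, (∑ k, lines2 α β γ i k * (tri L (x, v)) k)
      ^ expo2 p r a b j s i) ^ w)
      = ∑ t : L, ∑ y : L, kv N z μ (((∏ i, (x - α i * t - β i * y) ^ (r * (j * a i % p)))
        * (∏ l, (t - γ l * y) ^ (p * (s * b l % r))) * y ^ expo2 p r a b j s (Sum.inr (Sum.inr ()))) ^ w) := by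
    intro x
    rw [Fintype.sum_prod_type]
    refine sum_congr rfl fun t _ => sum_congr rfl fun y _ => ?_
    rw [hval]
  rw [sum_congr rfl fun x _ => h1 x]
  -- move the last coordinate to the front
  have h2 : ∑ x : L, ∑ t : L, ∑ y : L, kv N z μ
      (((∏ i, (x - α i * t - β i * y) ^ (r * (j * a i % p)))
        * (∏ l, (t - γ l * y) ^ (p * (s * b l % r))) * y ^ expo2 p r a b j s (Sum.inr (Sum.inr ()))) ^ w)
      = ∑ y : L, ∑ x : L, ∑ t : L, kv N z μ
      (((∏ i, (x - α i * t - β i * y) ^ (r * (j * a i % p)))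
        * (∏ l, (t - γ l * y) ^ (p * (s * b l % r))) * y ^ expo2 p r a b j s (Sum.inr (Sum.inr ()))) ^ w) := by
    rw [sum_comm' (s := univ) (t := fun _ => univ) (s' := fun _ => univ) (t' := univ) (by simp)]
    have : ∀ t : L, ∑ x : L, ∑ y : L, kv N z μ
      (((∏ i, (x - α i * t - β i * y) ^ (r * (j * a i % p)))
        * (∏ l, (t - γ l * y) ^ (p * (s * b l % r))) * y ^ expo2 p r a b j s (Sum.inr (Sum.inr ()))) ^ w)
        = ∑ y : L, ∑ x : L, kv N z μ
      (((∏ i, (x - α i * t - β i * y) ^ (r * (j * a i % p)))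
        * (∏ l, (t - γ l * y) ^ (p * (s * b l % r))) * y ^ expo2 p r a b j s (Sum.inr (Sum.inr ()))) ^ w) := fun t => sum_comm
    rw [sum_congr rfl fun t _ => this t, sum_comm]
    refine sum_congr rfl fun y _ => ?_
    rw [sum_comm]
  rw [h2]
  -- the values of the inner sum
  have h3 : ∀ y : L, ∑ x : L, ∑ t : L, kv N z μ
      (((∏ i, (x - α i * t - β i * y) ^ (r * (j * a i % p)))
        * (∏ l, (t - γ l * y) ^ (p * (s * b l % r))) * y ^ expo2 p r a b j s (Sum.inr (Sum.inr ()))) ^ w)
      = if y = 0 then 0 else doubleSum L R p r α β a γ b z μ j s := by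
    intro y
    by_cases hy : y = 0
    · rw [if_pos hy]
      apply sum_eq_zero
      intro x _
      apply sum_eq_zero
      intro t _
      rw [hy, zero_pow hpos.ne', mul_zero, zero_pow hw0]
      unfold kv
      apply sum_eq_zero
      intro i _
      rw [if_neg]
      intro h
      exact pow_ne_zero i (hz.ne_zero (by omega)) h.symm
    · rw [if_neg hy]
      unfold doubleSum
      rw [← Equiv.sum_comp (Equiv.mulLeft₀ y hy)]
      refine sum_congr rfl fun x _ => ?_
      rw [← Equiv.sum_comp (Equiv.mulLeft₀ y hy)]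
      refine sum_congr rfl fun t _ => ?_
      congr 1
      simp only [Equiv.mulLeft₀_apply]
      have h4 : ∏ i, (y * x - α i * (y * t) - β i * y) ^ (r * (j * a i % p))
          = y ^ (∑ i, r * (j * a i % p))
            * ∏ i, (x - α i * t - β i) ^ (r * (j * a i % p)) := by
        rw [← prod_pow_eq_pow_sum, ← prod_mul_distrib]
        refine prod_congr rfl fun i _ => ?_
        rw [← mul_pow]
        congr 1
        ring
      rw [h4]
      have h4' : ∏ l, (y * t - γ l * y) ^ (p * (s * b l % r))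
          = y ^ (∑ l, p * (s * b l % r)) * ∏ l, (t - γ l) ^ (p * (s * b l % r)) := by
        rw [← prod_pow_eq_pow_sum, ← prod_mul_distrib]
        refine prod_congr rfl fun l _ => ?_
        rw [← mul_pow]
        congr 1
        ring
      rw [h4']
      have h5 : y ^ (∑ i, r * (j * a i % p))
            * (∏ i, (x - α i * t - β i) ^ (r * (j * a i % p)))
            * (y ^ (∑ l, p * (s * b l % r)) * (∏ l, (t - γ l) ^ (p * (s * b l % r))))
            * y ^ expo2 p r a b j s (Sum.inr (Sum.inr ()))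
          = y ^ (∑ i, expo2 p r a b j s i)
            * ((∏ i, (x - α i * t - β i) ^ (r * (j * a i % p)))
              * (∏ l, (t - γ l) ^ (p * (s * b l % r)))) := by
        rw [Fintype.sum_sum_type, Fintype.sum_sum_type, Fintype.sum_unique (ι := Unit)]
        have h6 : ∀ l, expo2 p r a b j s (Sum.inr (Sum.inl l)) = p * (s * b l % r) := fun l => rfl
        have h7 : ∀ i, expo2 p r a b j s (Sum.inl i) = r * (j * a i % p) := fun i => rfl
        have h8 : (default : Unit) = () := rfl
        rw [sum_congr rfl fun l _ => h6 l, sum_congr rfl fun i _ => h7 i, h8]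
        generalize (∑ i, r * (j * a i % p)) = A
        generalize (∏ i, (x - α i * t - β i) ^ (r * (j * a i % p))) = P
        generalize (∑ l, p * (s * b l % r)) = A'
        generalize (∏ l, (t - γ l) ^ (p * (s * b l % r))) = P'
        generalize expo2 p r a b j s (Sum.inr (Sum.inr ())) = e1
        rw [pow_add, pow_add]
        ring
      rw [h5, mul_pow]
      obtain ⟨q', hq'⟩ := hdvd
      have h8 : (y ^ (∑ i, expo2 p r a b j s i)) ^ w = 1 := by
        rw [hq', ← pow_mul, mul_comm N q', mul_assoc, mul_comm N w, hwN, mul_comm, pow_mul,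
          FiniteField.pow_card_sub_one_eq_one y hy, one_pow]
      rw [h8, one_mul]
  rw [sum_congr rfl fun y _ => h3 y, sum_ite, sum_const_zero, zero_add, sum_const]
  have h9 : (univ.filter fun y : L => ¬ y = 0).card = Fintype.card L - 1 := by
    rw [filter_not, card_sdiff_of_subset (filter_subset _ _)]
    have : (univ.filter fun y : L => y = 0) = {0} := by ext; simp
    rw [this, card_singleton, card_univ]
  rw [h9, nsmul_eq_mul, Nat.cast_sub (by omega), Nat.cast_one]

end Pool.Agent.W528.HC
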