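import Pool.Agent.W528.HB.Core

/-!
# Superelliptic curves over `k(t^(1/r))`: statements of the parts
-/

set_option autoImplicit false

namespace Pool.Agent.W528.HC

open Finset Pool.Agent.W528.HA

/-- The sum over `(x, t) ∈ L²` of the value at
`∏ (x - α_i t - β_i) ^ (r (j a_i mod p)) * t ^ (p s)` of the character of order `p r` of `L`
belonging to `z ↦ μ`. -/
noncomputable def curveSum (L : Type) [Field L] [Fintype L] (R : Type) [CommRing R] (p r : ℕ)
    {m : ℕ} (α β : Fin m → L) (a : Fin m → ℕ) (z : L) (μ : R) (j s : ℕ) : R :=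
  ∑ x : L, ∑ t : L, kv (p * r) z μ
    (((∏ i, (x - α i * t - β i) ^ (r * (j * a i % p))) * t ^ (p * s))
      ^ ((Fintype.card L - 1) / (p * r)))

/-- The number of points over `L` of the affine surface `y ^ p = ∏ (x - α_i u ^ r - β_i) ^ a_i`. -/
noncomputable def surfacePoints (L : Type) [Field L] (p r : ℕ) {m : ℕ} (α β : Fin m → L)
    (a : Fin m → ℕ) : ℕ :=
  Set.ncard {v : L × L × L | v.2.2 ^ p = ∏ i, (v.1 - α i * v.2.1 ^ r - β i) ^ a i}

/-- Powers in terms of characters. -/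
def PR : Prop :=
  ∀ (L : Type) [Field L] [Fintype L] (N p r : ℕ) (z : L), N = p * r → IsPrimitiveRoot z N →
    0 < p → 0 < r → ∀ (R : Type) [Field R] [CharZero R] (μ : R), IsPrimitiveRoot μ N →
    ∀ v : L, ((Set.ncard {y : L | y ^ p = v} : ℕ) : R)
      = 1 + ∑ j ∈ Ico 1 p, kv N z μ ((v ^ (r * j)) ^ ((Fintype.card L - 1) / N))

/-- `kv` is multiplicative on the values of the power map. -/
def MU : Prop :=
  ∀ (L : Type) [Field L] [Fintype L] (N : ℕ) (z : L), 2 ≤ N → IsPrimitiveRoot z N →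
    ∀ (R : Type) [CommRing R] (μ : R), μ ^ N = 1 → ∀ v w : L,
      kv N z μ ((v * w) ^ ((Fintype.card L - 1) / N))
        = kv N z μ (v ^ ((Fintype.card L - 1) / N)) * kv N z μ (w ^ ((Fintype.card L - 1) / N))

/-- The sum of all character sums. -/
def PC : Prop :=
  ∀ (L : Type) [Field L] [Fintype L] (p r : ℕ) (z : L), p.Prime → 0 < r → r.Coprime p →
    IsPrimitiveRoot z (p * r) → ∀ (E : Type) [Field E] [CharZero E] (μ : E),
    IsPrimitiveRoot μ (p * r) → ∀ (m : ℕ) (α β : Fin m → L) (a : Fin m → ℕ),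
    (∀ i, 0 < a i ∧ a i < p) →
    ∑ j ∈ Ico 1 p, ∑ s ∈ range r, curveSum L E p r α β a z μ j s
      = (surfacePoints L p r α β a : E) - (Fintype.card L : E) ^ 2

/-- The exponents of the `m + 2` lines: the lines `x = α_i t + β_i`, the line `t = 0` and the line at
infinity. -/
def expo (p r : ℕ) {m : ℕ} (a : Fin m → ℕ) (j s : ℕ) : Fin m ⊕ Fin 2 → ℕ
  | Sum.inl i => r * (j * a i % p)
  | Sum.inr k => if k = 0 then p * s
      else (p * r - ((∑ i, r * (j * a i % p)) + p * s) % (p * r)) % (p * r)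

/-- The arithmetic of the exponents. -/
def AR : Prop :=
  ∀ (p r c f : ℕ), p.Prime → 0 < r → r.Coprime p → c.Prime → ¬ c ∣ r → p ∣ c - 1 → 0 < f →
    ∀ (m : ℕ) (a : Fin m → ℕ), (∀ i, 0 < a i) → 2 * ∑ i, a i < p → 0 < m →
    ∀ j s : ℕ, 0 < j → j < p → s < r →
      (∀ i, expo p r a j s i < p * r) ∧ 0 < expo p r a j s (Sum.inr 1) ∧
      p * r ∣ ∑ i, expo p r a j s i ∧
      ∃ j' : ℕ, j'.Coprime (p * r) ∧
        ∑ i, ∑ s0 ∈ range f, (j' * expo p r a j s i * c ^ s0) % (p * r) < f * (p * r) * 2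

end Pool.Agent.W528.HC
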