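import Pool.Agent.W528.HC.Stm

/-!
# Superelliptic curves over superelliptic function fields: statements of the parts
-/

set_option autoImplicit false

namespace Pool.Agent.W528.HC

open Finset Pool.Agent.W528.HA

/-- The sum over `(x, t) ∈ L²` of the value at
`∏ (x - α_i t - β_i) ^ (r (j a_i mod p)) * ∏ (t - γ_l) ^ (p (s b_l mod r))` of the character of
order `p r` of `L` belonging to `z ↦ μ`. -/
noncomputable def doubleSum (L : Type) [Field L] [Fintype L] (R : Type) [CommRing R] (p r : ℕ)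
    {m h : ℕ} (α β : Fin m → L) (a : Fin m → ℕ) (γ : Fin h → L) (b : Fin h → ℕ) (z : L) (μ : R)
    (j s : ℕ) : R :=
  ∑ x : L, ∑ t : L, kv (p * r) z μ
    (((∏ i, (x - α i * t - β i) ^ (r * (j * a i % p))) * ∏ l, (t - γ l) ^ (p * (s * b l % r)))
      ^ ((Fintype.card L - 1) / (p * r)))

/-- The number of points `(t, u)` over `L` of the affine curve `u ^ r = ∏ (t - γ_l) ^ b_l`. -/
noncomputable def basePoints (L : Type) [Field L] (r : ℕ) {h : ℕ} (γ : Fin h → L)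
    (b : Fin h → ℕ) : ℕ :=
  Set.ncard {v : L × L | v.2 ^ r = ∏ l, (v.1 - γ l) ^ b l}

/-- The number of points `((x, t), (u, y))` over `L` of the affine surface
`u ^ r = ∏ (t - γ_l) ^ b_l`, `y ^ p = ∏ (x - α_i t - β_i) ^ a_i`. -/
noncomputable def totalPoints (L : Type) [Field L] (p r : ℕ) {m h : ℕ} (α β : Fin m → L)
    (a : Fin m → ℕ) (γ : Fin h → L) (b : Fin h → ℕ) : ℕ :=
  Set.ncard {v : (L × L) × L × L | v.2.1 ^ r = ∏ l, (v.1.2 - γ l) ^ b l ∧
    v.2.2 ^ p = ∏ i, (v.1.1 - α i * v.1.2 - β i) ^ a i}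

/-- The sum of all character sums. -/
def PD : Prop :=
  ∀ (L : Type) [Field L] [Fintype L] (p r : ℕ) (z : L), p.Prime → r.Prime → p ≠ r →
    IsPrimitiveRoot z (p * r) → ∀ (E : Type) [Field E] [CharZero E] (μ : E),
    IsPrimitiveRoot μ (p * r) → ∀ (m h : ℕ) (α β : Fin m → L) (a : Fin m → ℕ) (γ : Fin h → L)
    (b : Fin h → ℕ), (∀ i, 0 < a i ∧ a i < p) → (∀ l, 0 < b l ∧ b l < r) →
    ∑ j ∈ Ico 1 p, ∑ s ∈ range r, doubleSum L E p r α β a γ b z μ j s
      = (totalPoints L p r α β a γ b : E) - (Fintype.card L : E) * (basePoints L r γ b : E)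

/-- The exponents of the `m + h + 1` lines: the lines `x = α_i t + β_i`, the lines `t = γ_l` and the
line at infinity. -/
def expo2 (p r : ℕ) {m h : ℕ} (a : Fin m → ℕ) (b : Fin h → ℕ) (j s : ℕ) :
    Fin m ⊕ (Fin h ⊕ Unit) → ℕ
  | Sum.inl i => r * (j * a i % p)
  | Sum.inr (Sum.inl l) => p * (s * b l % r)
  | Sum.inr (Sum.inr _) =>
      (p * r - ((∑ i, r * (j * a i % p)) + ∑ l, p * (s * b l % r)) % (p * r)) % (p * r)

/-- The arithmetic of the exponents. -/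
def AS : Prop :=
  ∀ (p r c f : ℕ), p.Prime → r.Prime → p ≠ r → c.Prime → p * r ∣ c - 1 → 0 < f →
    ∀ (m h : ℕ) (a : Fin m → ℕ) (b : Fin h → ℕ), (∀ i, 0 < a i) → (∀ l, 0 < b l) →
    r * ∑ i, a i + p * ∑ l, b l < p * r → 0 < m →
    ∀ j s : ℕ, 0 < j → j < p → s < r →
      (∀ i, expo2 p r a b j s i < p * r) ∧ 0 < expo2 p r a b j s (Sum.inr (Sum.inr ())) ∧
      p * r ∣ ∑ i, expo2 p r a b j s i ∧
      ∃ j' : ℕ, j'.Coprime (p * r) ∧
        ∑ i, ∑ s0 ∈ range f, (j' * expo2 p r a b j s i * c ^ s0) % (p * r) < f * (p * r) * 2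

end Pool.Agent.W528.HC
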